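import Pool.Agent.Helper17.IAN.StN

/-!
# Project IA, module PCK: the used triples form a packing
-/

set_option autoImplicit false

namespace Pool.Agent.Helper32.IAN

open Finset Pool.Agent.Helper93.IA Pool.Agent.Helper17.IAN

theorem hPCK : StPCK := by
  classical
  intro α β γ _ _ _ _ _ _ x A B C σ hx hσ
  obtain ⟨P, hP⟩ : ∃ P : Finset (α × β × γ), ∀ a b c, (a, b, c) ∈ P ↔ used σ a b c :=
    ⟨univ.filter fun T => used σ T.1 T.2.1 T.2.2, fun a b c => by simp⟩
  have hx0 : ∀ a b c, used σ a b c → x a b c ≠ 0 := by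
    intro a b c h
    have h1 := hσ (a, b)
    rw [h.1] at h1
    exact h1
  refine ⟨P, ⟨?_, ?_, ?_, ?_, ?_, ?_⟩, hP, fun a b => ?_, fun b c => ?_, fun c a => ?_⟩
  · rintro ⟨a, b, c⟩ h
    exact (hx a b c (hx0 a b c ((hP a b c).1 h))).1
  · rintro ⟨a, b, c⟩ h
    exact (hx a b c (hx0 a b c ((hP a b c).1 h))).2.1
  · rintro ⟨a, b, c⟩ h
    exact (hx a b c (hx0 a b c ((hP a b c).1 h))).2.2
  · rintro ⟨a, b, c⟩ h ⟨a', b', c'⟩ h' he
    have h1 : a = a' := congrArg Prod.fst he
    have h2 : b = b' := congrArg Prod.snd he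
    subst h1 h2
    have h3 := ((hP a b c).1 h).1
    have h4 := ((hP a b c').1 h').1
    rw [h3] at h4
    rw [Option.some.inj h4]
  · rintro ⟨a, b, c⟩ h ⟨a', b', c'⟩ h' he
    have h1 : b = b' := congrArg Prod.fst he
    have h2 : c = c' := congrArg Prod.snd he
    subst h1 h2
    have h3 := ((hP a b c).1 h).2.2
    have h4 := ((hP a' b c).1 h').1
    by_cases hne : a' = a
    · rw [hne]
    · exact absurd h4 (h3 a' hne)
  · rintro ⟨a, b, c⟩ h ⟨a', b', c'⟩ h' he
    have h1 : c = c' := congrArg Prod.fst he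
    have h2 : a = a' := congrArg Prod.snd he
    subst h1 h2
    have h3 := ((hP a b c).1 h).2.1
    have h4 := ((hP a b' c).1 h').1
    by_cases hne : b' = b
    · rw [hne]
    · exact absurd h4 (h3 b' hne)
  · rw [mem_image]
    constructor
    · rintro ⟨⟨a', b', c'⟩, h, he⟩
      have h1 : a' = a := congrArg Prod.fst he
      have h2 : b' = b := congrArg Prod.snd he
      subst h1 h2
      exact ⟨c', (hP _ _ _).1 h⟩
    · rintro ⟨c, h⟩
      exact ⟨(a, b, c), (hP _ _ _).2 h, rfl⟩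
  · rw [mem_image]
    constructor
    · rintro ⟨⟨a', b', c'⟩, h, he⟩
      have h1 : b' = b := congrArg Prod.fst he
      have h2 : c' = c := congrArg Prod.snd he
      subst h1 h2
      exact ⟨a', (hP _ _ _).1 h⟩
    · rintro ⟨a, h⟩
      exact ⟨(a, b, c), (hP _ _ _).2 h, rfl⟩
  · rw [mem_image]
    constructor
    · rintro ⟨⟨a', b', c'⟩, h, he⟩
      have h1 : c' = c := congrArg Prod.fst he
      have h2 : a' = a := congrArg Prod.snd he
      subst h1 h2
      exact ⟨b', (hP _ _ _).1 h⟩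
    · rintro ⟨b, h⟩
      exact ⟨(a, b, c), (hP _ _ _).2 h, rfl⟩

end Pool.Agent.Helper32.IAN
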